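import Pool.Agent.N124.CU.Stm2

set_option autoImplicit false

/-!
# Project CU: pure algebra
-/

namespace Pool.Agent.N49.CU

open Pool.Agent.N124.CU

theorem t_common : S_common := by
  intro g e2 e3 u3 v3 u2 v2 hg he2 h22 hu hv hFF
  by_cases hv2 : v2 = 0
  · subst hv2
    have hv3 : v3 ≠ 0 := by simpa using hv
    have hu2 : u2 ≠ 0 := by simpa using h22
    have h1 : v3 * (g * u2 ^ 2 * v3 + e2 ^ 2 * u3 - e2 * (e3 + u3 * v3) * u2) = 0 := by
      rw [← hFF]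
      unfold FF
      ring
    have h2 := (mul_eq_zero.mp h1).resolve_left hv3
    refine ⟨u2 * g / e2, div_ne_zero (mul_ne_zero hu2 hg) he2, ?_, ?_⟩
    · field_simp
      ring
    · field_simp
      linear_combination g * h2
  · by_cases hu2 : u2 = 0
    · subst hu2
      have hu3 : u3 ≠ 0 := by simpa using hu
      have h1 : u3 * (g * v2 ^ 2 * u3 - e2 * (e3 + u3 * v3) * v2 + e2 ^ 2 * v3) = 0 := by
        rw [← hFF]
        unfold FF
        ring
      have h2 := (mul_eq_zero.mp h1).resolve_left hu3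
      refine ⟨e2 / v2, div_ne_zero he2 hv2, ?_, ?_⟩
      · field_simp
        ring
      · field_simp
        linear_combination h2
    · obtain ⟨r, s, hb, hc⟩ := exists_roots (-(u2 * v2 + e2)) (u2 * g) hv2
      have hb' : e2 + u2 * v2 = v2 * (r + s) := by linear_combination (-1) * hb
      have hr0 : r ≠ 0 := by
        rintro rfl
        exact mul_ne_zero hu2 hg (by rw [hc]; ring)
      have hs0 : s ≠ 0 := by
        rintro rfl
        exact mul_ne_zero hu2 hg (by rw [hc]; ring)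
      have key : v2 ^ 2 * ((v3 * r ^ 2 - (u3 * v3 + e3) * r + u3 * g) *
          (v3 * s ^ 2 - (u3 * v3 + e3) * s + u3 * g)) = 0 := by
        have h1 : g * FF g e2 e3 u3 v3 u2 v2 = (g * v2 * u3 - (u2 * g) * v3) ^ 2 -
            ((e2 + u2 * v2) * u3 * g - (e3 + u3 * v3) * (u2 * g)) *
              ((e3 + u3 * v3) * v2 - (e2 + u2 * v2) * v3) := by
          unfold FF
          ring
        rw [hFF, mul_zero, hb', hc] at h1
        rw [h1]
        ring
      have h2 := (mul_eq_zero.mp key).resolve_left (pow_ne_zero 2 hv2)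
      rcases mul_eq_zero.mp h2 with h3 | h3
      · refine ⟨r, hr0, ?_, h3⟩
        have := root_left hb hc
        linear_combination this
      · refine ⟨s, hs0, ?_, h3⟩
        have := root_right hb hc
        linear_combination this

theorem t_real : S_real := by
  intro x w p p2 p3 ω2 ω3 hx0 hx1 hw hne hp hp2 hp3 hω2 hω3 hQ3 hI3 hQ2 hI2 hq2 hq3
  have hwC : (w : ℂ) ≠ 0 := by exact_mod_cast hw
  have hQ3' := (Par.RQ_iff (arm3 x) hp2).mp hQ3
  have hI3' := (Par.RI_iff (arm3 x) hp2 hω3).mp hI3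
  have hQ2' := (Par.RQ_iff (arm2 x) hp3).mp hQ2
  have hI2' := (Par.RI_iff (arm2 x) hp3 hω2).mp hI2
  simp only [arm3, arm2, Par.eta] at hQ3' hI3' hQ2' hI2'
  have h9 : (p - (1 + ω2)) * ((x 4 : ℂ) / p - ((x 0 : ℂ) + x 2 / ω2)) = (x 9 : ℂ) := by
    have : (p - (1 + ω2)) * ((x 4 : ℂ) - ((x 0 : ℂ) + x 2 / ω2) * p) = (x 9 : ℂ) * p := by
      linear_combination (-1) * hq2
    have h' : (p - (1 + ω2)) * ((x 4 : ℂ) / p - ((x 0 : ℂ) + x 2 / ω2)) =
        ((p - (1 + ω2)) * ((x 4 : ℂ) - ((x 0 : ℂ) + x 2 / ω2) * p)) / p := by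
      field_simp
    rw [h', this, mul_div_assoc, div_self hp, mul_one]
  have h11 : (p - (1 + ω3)) * ((x 4 : ℂ) / p - ((x 0 : ℂ) + x 3 / ω3)) = (x 11 : ℂ) := by
    have : (p - (1 + ω3)) * ((x 4 : ℂ) - ((x 0 : ℂ) + x 3 / ω3) * p) = (x 11 : ℂ) * p := by
      linear_combination (-1) * hq3
    have h' : (p - (1 + ω3)) * ((x 4 : ℂ) / p - ((x 0 : ℂ) + x 3 / ω3)) =
        ((p - (1 + ω3)) * ((x 4 : ℂ) - ((x 0 : ℂ) + x 3 / ω3) * p)) / p := by
      field_simp
    rw [h', this, mul_div_assoc, div_self hp, mul_one]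
  refine ⟨![1, p, p2, p3, 0, 1 + w, 1 + ω2, 1 + ω3],
    ![x 0, x 4 / p, x 5 / p2, x 6 / p3, 0, x 0 + x 1 / w, x 0 + x 2 / ω2, x 0 + x 3 / ω3],
    (1 + w) * (x 0 + x 1 / w), ?_, ?_, ?_⟩
  · intro e
    fin_cases e
    · show ((1 : ℂ) - 0) * ((x 0 : ℂ) - 0) = (x 0 : ℂ)
      ring
    · show ((1 : ℂ) - (1 + w)) * ((x 0 : ℂ) - (x 0 + x 1 / w)) = (x 1 : ℂ)
      field_simp
      ring
    · show ((1 : ℂ) - (1 + ω2)) * ((x 0 : ℂ) - (x 0 + x 2 / ω2)) = (x 2 : ℂ)
      field_simp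
      ring
    · show ((1 : ℂ) - (1 + ω3)) * ((x 0 : ℂ) - (x 0 + x 3 / ω3)) = (x 3 : ℂ)
      field_simp
      ring
    · show (p - 0) * ((x 4 : ℂ) / p - 0) = (x 4 : ℂ)
      field_simp
      ring
    · show (p2 - 0) * ((x 5 : ℂ) / p2 - 0) = (x 5 : ℂ)
      field_simp
      ring
    · show (p3 - 0) * ((x 6 : ℂ) / p3 - 0) = (x 6 : ℂ)
      field_simp
      ring
    · show (p2 - (1 + w)) * ((x 5 : ℂ) / p2 - (x 0 + x 1 / w)) = (x 7 : ℂ)
      exact hQ3'
    · show (p3 - (1 + w)) * ((x 6 : ℂ) / p3 - (x 0 + x 1 / w)) = (x 8 : ℂ)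
      exact hQ2'
    · exact h9
    · show (p3 - (1 + ω2)) * ((x 6 : ℂ) / p3 - (x 0 + x 2 / ω2)) = (x 10 : ℂ)
      rw [← hI2']
      ring
    · exact h11
    · show (p2 - (1 + ω3)) * ((x 5 : ℂ) / p2 - (x 0 + x 3 / ω3)) = (x 12 : ℂ)
      rw [← hI3']
      ring
  · show ((1 : ℂ) + w - 0) * ((x 0 : ℂ) + x 1 / w - 0) = (((1 + w) * (x 0 + x 1 / w) : ℝ) : ℂ)
    push_cast
    ring
  · have h1 : (1 + w) * (x 0 + x 1 / w) - x 0 - x 1 = x 0 * w + x 1 / w := by
      field_simp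
      ring
    rw [h1]
    have h2 : (x 0 * w + x 1 / w) ^ 2 = 4 * x 0 * x 1 + (x 0 * w - x 1 / w) ^ 2 := by
      field_simp
      ring
    rw [h2]
    have h3 : x 0 * w - x 1 / w ≠ 0 := by
      intro h
      apply hne
      field_simp at h
      linarith
    have h4 : 0 < (x 0 * w - x 1 / w) ^ 2 := by positivity
    linarith

end Pool.Agent.N49.CU
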